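import Mathlib
import Pool.Agent.H217Z.PagingDefs
import Pool.Agent.H217Z.PagingMain

set_option autoImplicit false

namespace Pool.Agent.Results.MP_9bbf37_lc.AFormula

open Pool.Agent.H217Z.Paging

universe u

/-- For every memory size `k ≥ 1`, every universe with more than `k` pages, all initial contents
and all `i < l`: `c(L_i, L_l) = min(k, ⌊l / (i + 1)⌋ + 1)`. -/
theorem result (α : Type u) [DecidableEq α] (k : ℕ) (hk : 1 ≤ k)
    (hα : ∃ P : Finset α, k < P.card) (I : Finset α) (hI : I.card ≤ k) (i l : ℕ) (hil : i < l) :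
    compRatio k I i l = (((min k (l / (i + 1) + 1) : ℕ) : ℝ) : EReal) :=
  compRatio_eq hk hI hα hil

end Pool.Agent.Results.MP_9bbf37_lc.AFormula
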