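import Mathlib
import Pool.Agent.H217Z.PagingDefs
import Pool.Agent.H217Z.PagingMain

set_option autoImplicit false

namespace Pool.Agent.Results.MP_9bbf37_lc.BNotStrict

open Pool.Agent.H217Z.Paging

universe u

/-- For every memory size `k ≥ 1`, every universe with more than `k` pages and all initial
contents, the strict inequality fails for `i = 1 < j = 2 < l = 3`. -/
theorem result (α : Type u) [DecidableEq α] (k : ℕ) (hk : 1 ≤ k)
    (hα : ∃ P : Finset α, k < P.card) (I : Finset α) (hI : I.card ≤ k) :
    compRatio k I 1 3 = compRatio k I 2 3 := by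
  rw [compRatio_eq hk hI hα (by norm_num), compRatio_eq hk hI hα (by norm_num)]

end Pool.Agent.Results.MP_9bbf37_lc.BNotStrict
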